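import Pool.Agent.W78.EC.Defs2

/-!
Project EC (helper78), task B7: `Gv = G0` on average over the pairs in a cone.
-/

set_option autoImplicit false

namespace Pool.Agent.W935.EC

open Finset Filter
open Pool.Agent.H376R2.MR
open Pool.Agent.W78.GA
open Pool.Agent.W78.EC

/-- the bound given by summation by parts -/
noncomputable def BB (Q D c : ℕ) : ℝ :=
  |EE Q D c (2 * Q) (2 * Q)| +
      (∑ t ∈ Ioc Q (2 * Q), (|EE Q D c t (2 * Q)| + |EE Q D c (2 * Q) t|)) / Q +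
      (∑ t ∈ Ioc Q (2 * Q), ∑ u ∈ Ioc Q (2 * Q), |EE Q D c t u|) / (Q : ℝ) ^ 2

lemma BB_nonneg (Q D c : ℕ) : 0 ≤ BB Q D c := by
  unfold BB
  positivity

/-- partial sums -/
lemma part_eq (Q D c t u : ℕ) (ht : Q ≤ t) (hu : Q ≤ u) :
    ∑ m ∈ Ioc Q t, ∑ n ∈ Ioc Q u, ((if n ≡ c * m [MOD D] then th Q m * th Q n else 0) -
      (1 + ch4 D c) / (4 * (Nat.totient D : ℝ))) = EE Q D c t u := by
  unfold EE
  simp only [Finset.sum_sub_distrib, Finset.sum_const, Nat.card_Ioc, nsmul_eq_mul]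
  rw [Nat.cast_sub ht, Nat.cast_sub hu]
  ring

/-- one pair -/
lemma pair (h2 : S_ABEL) (h4 : S_GVL) {C : ℝ} (hC : 0 < C)
    (h3 : ∀ (Q : ℕ) (X L : ℝ) (w₁ w₂ : Gi), 1 ≤ Q → 1 ≤ X → 1 ≤ L →
      (nm w₁ : ℝ) ≤ X → (nm w₂ : ℝ) ≤ X → (Q : ℝ) / L ≤ (dt w₁ w₂ : ℝ) → ∀ Ψ : ℕ → ℕ → ℝ,
      (∀ m₁ m₂, Ψ m₁ m₂ = psi (nm ((m₂ : Gi) * w₁ - (m₁ : Gi) * w₂) / ((dt w₁ w₂ : ℝ) ^ 2 * X))) →
      ∀ m n, m ∈ Ioc Q (2 * Q) → n ∈ Ioc Q (2 * Q) → |Ψ m n| ≤ C * L ^ 4 ∧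
        |Ψ (m + 1) n - Ψ m n| ≤ C * L ^ 4 / Q ∧ |Ψ m (n + 1) - Ψ m n| ≤ C * L ^ 4 / Q ∧
        |Ψ (m + 1) (n + 1) - Ψ (m + 1) n - Ψ m (n + 1) + Ψ m n| ≤ C * L ^ 4 / (Q : ℝ) ^ 2)
    (Q : ℕ) (X L : ℝ) (w₁ w₂ : Gi) (hQ : 1 ≤ Q) (hX : 1 ≤ X) (hL : 1 ≤ L) (hp₁ : prim w₁)
    (hp₂ : prim w₂) (hw₁ : (nm w₁ : ℝ) ≤ X) (hw₂ : (nm w₂ : ℝ) ≤ X)
    (hd : (Q : ℝ) / L ≤ (dt w₁ w₂ : ℝ)) :
    ∃ c : ℕ, c < (dt w₁ w₂).toNat ∧ Nat.Coprime c (dt w₁ w₂).toNat ∧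
      dt w₁ w₂ ∣ w₂.re - c * w₁.re ∧ dt w₁ w₂ ∣ w₂.im - c * w₁.im ∧
      |Gv Q X w₁ w₂ - G0 Q X w₁ w₂| ≤ C * L ^ 4 * BB Q (dt w₁ w₂).toNat c := by
  have hQ' : (1 : ℝ) ≤ Q := by exact_mod_cast hQ
  have hdpos : 0 < dt w₁ w₂ := by
    have : (0 : ℝ) < (dt w₁ w₂ : ℝ) := lt_of_lt_of_le (by positivity) hd
    exact_mod_cast this
  obtain ⟨c, hc, hcop, hd1, hd2, hxi, hG⟩ := h4 Q X w₁ w₂ hX hp₁ hp₂ hdpos
  refine ⟨c, hc, hcop, hd1, hd2, ?_⟩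
  set D := (dt w₁ w₂).toNat with hD
  set Ψ : ℕ → ℕ → ℝ := fun m₁ m₂ =>
    psi (nm ((m₂ : Gi) * w₁ - (m₁ : Gi) * w₂) / ((dt w₁ w₂ : ℝ) ^ 2 * X)) with hΨ
  set a : ℕ → ℕ → ℝ := fun m n => (if n ≡ c * m [MOD D] then th Q m * th Q n else 0) -
      (1 + ch4 D c) / (4 * (Nat.totient D : ℝ)) with ha
  have hb := h3 Q X L w₁ w₂ hQ hX hL hw₁ hw₂ hd Ψ (fun _ _ => rfl)
  have hab := h2 Q a Ψ (C * L ^ 4) hQ (by positivity) (fun m n hm hn => hb m n hm hn)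
    (fun t u => ∑ m ∈ Ioc Q t, ∑ n ∈ Ioc Q u, a m n) (fun _ _ => rfl)
  have hG2 : Gv Q X w₁ w₂ - G0 Q X w₁ w₂ =
      ∑ m ∈ Ioc Q (2 * Q), ∑ n ∈ Ioc Q (2 * Q), a m n * Ψ m n := by
    rw [hG]
    unfold G0
    rw [hxi, Finset.mul_sum, ← Finset.sum_sub_distrib]
    refine Finset.sum_congr rfl fun m _ => ?_
    rw [Finset.mul_sum, ← Finset.sum_sub_distrib]
    refine Finset.sum_congr rfl fun n _ => ?_
    simp only [ha, hΨ]
    ring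
  rw [hG2]
  refine hab.trans (le_of_eq ?_)
  have hE : ∀ t u, Q ≤ t → Q ≤ u → ∑ m ∈ Ioc Q t, ∑ n ∈ Ioc Q u, a m n = EE Q D c t u :=
    fun t u ht hu => part_eq Q D c t u ht hu
  unfold BB
  rw [hE (2 * Q) (2 * Q) (by omega) (by omega)]
  congr 3
  · congr 1
    refine Finset.sum_congr rfl fun t ht => ?_
    rw [mem_Ioc] at ht
    rw [hE t (2 * Q) (by omega) (by omega), hE (2 * Q) t (by omega) (by omega)]
  · refine Finset.sum_congr rfl fun t ht => Finset.sum_congr rfl fun u hu => ?_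
    rw [mem_Ioc] at ht hu
    rw [hE t u (by omega) (by omega)]

/-- sum of the bounds over all classes -/
lemma sum_BB {Q : ℕ} (hQ : 1 ≤ Q) {ι : Type} (T : Finset ι) (d c : ι → ℕ) {R : ℝ}
    (hR : ∀ t u : ℕ, Q ≤ t → t ≤ 2 * Q → Q ≤ u → u ≤ 2 * Q →
      ∑ y ∈ T, |EE Q (d y) (c y) t u| ≤ R) :
    ∑ y ∈ T, BB Q (d y) (c y) ≤ 4 * R := by
  have hQ' : (0 : ℝ) < Q := by exact_mod_cast (by omega : 0 < Q)
  unfold BB
  rw [Finset.sum_add_distrib, Finset.sum_add_distrib, ← Finset.sum_div, ← Finset.sum_div]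
  have e1 := hR (2 * Q) (2 * Q) (by omega) le_rfl (by omega) le_rfl
  have e2 : (∑ y ∈ T, ∑ t ∈ Ioc Q (2 * Q), (|EE Q (d y) (c y) t (2 * Q)| +
      |EE Q (d y) (c y) (2 * Q) t|)) / Q ≤ 2 * R := by
    rw [div_le_iff₀ hQ', Finset.sum_comm]
    calc ∑ t ∈ Ioc Q (2 * Q), ∑ y ∈ T, (|EE Q (d y) (c y) t (2 * Q)| +
          |EE Q (d y) (c y) (2 * Q) t|) ≤ ∑ _t ∈ Ioc Q (2 * Q), 2 * R := by
          refine Finset.sum_le_sum fun t ht => ?_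
          rw [mem_Ioc] at ht
          rw [Finset.sum_add_distrib]
          have a1 := hR t (2 * Q) (by omega) (by omega) (by omega) le_rfl
          have a2 := hR (2 * Q) t (by omega) le_rfl (by omega) (by omega)
          linarith
      _ = 2 * R * Q := by
          rw [Finset.sum_const, Nat.card_Ioc, nsmul_eq_mul, show 2 * Q - Q = Q by omega]
          ring
  have e3 : (∑ y ∈ T, ∑ t ∈ Ioc Q (2 * Q), ∑ u ∈ Ioc Q (2 * Q), |EE Q (d y) (c y) t u|) /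
      (Q : ℝ) ^ 2 ≤ R := by
    rw [div_le_iff₀ (by positivity), Finset.sum_comm]
    calc ∑ t ∈ Ioc Q (2 * Q), ∑ y ∈ T, ∑ u ∈ Ioc Q (2 * Q), |EE Q (d y) (c y) t u|
        ≤ ∑ _t ∈ Ioc Q (2 * Q), ∑ _u ∈ Ioc Q (2 * Q), R := by
          refine Finset.sum_le_sum fun t ht => ?_
          rw [Finset.sum_comm]
          refine Finset.sum_le_sum fun u hu => ?_
          rw [mem_Ioc] at ht hu
          exact hR t u (by omega) (by omega) (by omega) (by omega)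
      _ = R * (Q : ℝ) ^ 2 := by
          rw [Finset.sum_const, Finset.sum_const, Nat.card_Ioc, nsmul_eq_mul, nsmul_eq_mul,
            show 2 * Q - Q = Q by omega]
          ring
  linarith

lemma hD01 : (0 : ℤ) ^ 2 < 4 * 1 := by norm_num

lemma dt_bound {e : Gi × Gi} (he : dt e.1 e.2 = 1) {x y x' y' : ℕ} {R : ℝ}
    (hx : (x : ℝ) ^ 2 ≤ R) (hy' : (y' : ℝ) ^ 2 ≤ R) :
    ((dt ((x : Gi) * e.1 + (y : Gi) * e.2) ((x' : Gi) * e.1 + (y' : Gi) * e.2) : ℤ) : ℝ) ≤ R := by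
  have h1 : dt ((x : Gi) * e.1 + (y : Gi) * e.2) ((x' : Gi) * e.1 + (y' : Gi) * e.2) =
      ((x : ℤ) * y' - y * x') * dt e.1 e.2 := by
    unfold dt
    simp only [QuadraticAlgebra.re_add, QuadraticAlgebra.im_add, QuadraticAlgebra.re_mul,
      QuadraticAlgebra.im_mul, QuadraticAlgebra.re_natCast, QuadraticAlgebra.im_natCast]
    ring
  rw [h1, he]
  push_cast
  have h2 : (x : ℝ) * y' ≤ R := by nlinarith [sq_nonneg ((x : ℝ) - y')]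
  have h3 : (0 : ℝ) ≤ (y : ℝ) * x' := by positivity
  linarith

/-- numerical part -/
lemma numer {q Kκ C CA ε N : ℝ} (hq : 1 ≤ q) (hK : 0 ≤ Kκ) (hC : 0 ≤ C) (hCA : 0 ≤ CA)
    (hN : 0 ≤ N) (h : (4 * Kκ + 1) ^ 4 * C * (4 * CA) ≤ ε * q) :
    (4 * (Kκ * q ^ 3) + 1) ^ 4 * (C * (q ^ 3) ^ 4 * (4 * (CA * N / q ^ 30))) ≤ ε * N := by
  have hq0 : 0 < q := by linarith
  have h1 : 4 * (Kκ * q ^ 3) + 1 ≤ (4 * Kκ + 1) * q ^ 3 := by
    have : 1 ≤ q ^ 3 := one_le_pow₀ hq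
    nlinarith
  have h2 : (4 * (Kκ * q ^ 3) + 1) ^ 4 ≤ ((4 * Kκ + 1) * q ^ 3) ^ 4 :=
    pow_le_pow_left₀ (by positivity) h1 4
  have h3 : 1 ≤ q ^ 5 := one_le_pow₀ hq
  have hε : 0 ≤ ε := by
    by_contra h'
    have : 0 ≤ (4 * Kκ + 1) ^ 4 * C * (4 * CA) := by positivity
    nlinarith
  calc (4 * (Kκ * q ^ 3) + 1) ^ 4 * (C * (q ^ 3) ^ 4 * (4 * (CA * N / q ^ 30)))
      ≤ ((4 * Kκ + 1) * q ^ 3) ^ 4 * (C * (q ^ 3) ^ 4 * (4 * (CA * N / q ^ 30))) :=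
        mul_le_mul_of_nonneg_right h2 (by positivity)
    _ = (4 * Kκ + 1) ^ 4 * C * (4 * CA) * N / q ^ 6 := by
        field_simp
    _ ≤ (ε * q) * N / q ^ 6 := by gcongr
    _ = ε * N / q ^ 5 := by
        field_simp
    _ ≤ ε * N := div_le_self (by positivity) h3

theorem gg0 (h1 : S_LSV) (h2 : S_ABEL) (h3 : S_PSID) (h4 : S_GVL) (h5 : S_MULT) (h6 : S_DTB) :
    S_GG0 := by
  classical
  intro K κ s₁ ε hK hκ hs₁ hε
  obtain ⟨C, hC, hpsi⟩ := h3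
  set C0 : ℕ := ⌈(K : ℝ) / κ⌉₊ with hC0
  obtain ⟨CA, Q1, hLSV⟩ := h1 C0 30
  set G : ℝ := (4 * ((K : ℝ) / κ) + 1) ^ 4 * C * (4 * |CA|) with hG
  refine ⟨max Q1 (⌈Real.exp (max 1 (G / ε))⌉₊), fun Q hQ0 X hX e he => ?_⟩
  have hQ1 : Q1 ≤ Q := (le_max_left _ _).trans hQ0
  have hQexp : Real.exp (max 1 (G / ε)) ≤ Q :=
    (Nat.le_ceil _).trans (by exact_mod_cast (le_max_right _ _).trans hQ0)
  have hQpos : (0 : ℝ) < Q := lt_of_lt_of_le (Real.exp_pos _) hQexp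
  have hQ : 1 ≤ Q := by exact_mod_cast hQpos
  have hlog : max 1 (G / ε) ≤ Real.log Q := (Real.le_log_iff_exp_le hQpos).2 hQexp
  have hq1 : 1 ≤ Real.log Q := (le_max_left _ _).trans hlog
  have hqG : G ≤ ε * Real.log Q := by
    have := (le_max_right 1 (G / ε)).trans hlog
    rw [div_le_iff₀ hε] at this
    linarith
  have hK' : (1 : ℝ) ≤ K := by exact_mod_cast hK
  have hQ' : (1 : ℝ) ≤ Q := by exact_mod_cast hQ
  have hX1 : 1 ≤ X := by nlinarith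
  set L : ℝ := Real.log Q ^ 3 with hLdef
  have hL1 : 1 ≤ L := one_le_pow₀ hq1
  have hL0 : 0 < L := by linarith
  have hΔ : (0 : ℝ) < Q / L := by positivity
  -- the edge
  have hedge : dt e.1 e.2 = 1 := by
    unfold good at he
    rw [mem_filter] at he
    have h := he.1
    unfold edge at h
    rw [mem_filter] at h
    exact h.2.1
  obtain ⟨-, hdtb⟩ := h6 K κ Q X hK hκ hQ hX e he
  set S := cw X s₁ 1 e.1 e.2 with hS
  have hScone : ∀ w ∈ S, w ∈ cone X e.1 e.2 := by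
    intro w hw
    rw [hS] at hw
    unfold cw at hw
    exact (mem_filter.1 hw).1
  have hprim : ∀ w ∈ S, prim w ∧ (nm w : ℝ) ≤ X := by
    intro w hw
    have := hScone w hw
    unfold cone at this
    rw [mem_filter, mem_pball hD01] at this
    exact this.1
  set P := (S ×ˢ S).filter (fun w => (Q : ℝ) / L ≤ (dt w.1 w.2 : ℝ)) with hP
  have hsum : (∑ w₁ ∈ S, ∑ w₂ ∈ S, if (Q : ℝ) / L ≤ (dt w₁ w₂ : ℝ) then
      |Gv Q X w₁ w₂ - G0 Q X w₁ w₂| else 0) = ∑ w ∈ P, |Gv Q X w.1 w.2 - G0 Q X w.1 w.2| := by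
    rw [hP, Finset.sum_filter, Finset.sum_product]
  rw [hsum]
  have hpair : ∀ w ∈ P, ∃ c : ℕ, c < (dt w.1 w.2).toNat ∧ Nat.Coprime c (dt w.1 w.2).toNat ∧
      dt w.1 w.2 ∣ w.2.re - c * w.1.re ∧ dt w.1 w.2 ∣ w.2.im - c * w.1.im ∧
      |Gv Q X w.1 w.2 - G0 Q X w.1 w.2| ≤ C * L ^ 4 * BB Q (dt w.1 w.2).toNat c := by
    intro w hw
    rw [hP, mem_filter, mem_product] at hw
    obtain ⟨⟨ha, hb⟩, hd⟩ := hw
    exact pair h2 h4 hC hpsi Q X L w.1 w.2 hQ hX1 hL1 (hprim _ ha).1 (hprim _ hb).1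
      (hprim _ ha).2 (hprim _ hb).2 hd
  choose! cc hcc using hpair
  set T : Finset (Σ _ : ℕ, ℕ) := (Icc 1 (C0 * Q)).sigma
    (fun D => (range D).filter (fun c => Nat.Coprime c D)) with hT
  set F : Gi × Gi → (Σ _ : ℕ, ℕ) := fun w => ⟨(dt w.1 w.2).toNat, cc w⟩ with hF
  have hDpos : ∀ w ∈ P, 0 < dt w.1 w.2 := by
    intro w hw
    rw [hP, mem_filter] at hw
    have : (0 : ℝ) < (dt w.1 w.2 : ℝ) := lt_of_lt_of_le hΔ hw.2
    exact_mod_cast this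
  have hmaps : ∀ w ∈ P, F w ∈ T := by
    intro w hw
    have h0 := hDpos w hw
    obtain ⟨hc1, hc2, -⟩ := hcc w hw
    rw [hP, mem_filter, mem_product] at hw
    obtain ⟨⟨ha, hb⟩, -⟩ := hw
    rw [hT, mem_sigma, mem_Icc, mem_filter, mem_range]
    refine ⟨⟨?_, ?_⟩, hc1, hc2⟩
    · show 1 ≤ (dt w.1 w.2).toNat
      omega
    · show (dt w.1 w.2).toNat ≤ C0 * Q
      obtain ⟨x, y, -, -, hx, -, hw1⟩ := hdtb _ (hScone _ ha)
      obtain ⟨x', y', -, -, -, hy', hw2⟩ := hdtb _ (hScone _ hb)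
      have hb1 := dt_bound (y := y) (x' := x') hedge hx hy'
      rw [← hw1, ← hw2] at hb1
      have hb2 : (K : ℝ) * Q / κ ≤ (C0 : ℝ) * Q := by
        have : (K : ℝ) / κ ≤ C0 := Nat.le_ceil _
        calc (K : ℝ) * Q / κ = (K : ℝ) / κ * Q := by ring
          _ ≤ _ := mul_le_mul_of_nonneg_right this hQpos.le
      have hb3 : ((dt w.1 w.2 : ℤ) : ℝ) ≤ ((C0 * Q : ℕ) : ℝ) := by
        push_cast
        linarith
      have hb4 : dt w.1 w.2 ≤ ((C0 * Q : ℕ) : ℤ) := by exact_mod_cast hb3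
      omega
  set Mu : ℝ := (4 * ((K : ℝ) / κ * L) + 1) ^ 4 with hMu
  have hMu0 : 0 ≤ Mu := by positivity
  have hfib : ∀ y ∈ T, ((P.filter (fun w => F w = y)).card : ℝ) ≤ Mu := by
    intro y hy
    rcases (P.filter (fun w => F w = y)).eq_empty_or_nonempty with h0 | ⟨w0, hw0⟩
    · rw [h0, card_empty, Nat.cast_zero]
      exact hMu0
    · rw [mem_filter] at hw0
      obtain ⟨hw0, hFw0⟩ := hw0
      have hy1 : 1 ≤ y.1 := by
        rw [hT, mem_sigma, mem_Icc] at hy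
        exact hy.1.1
      have hyD : (Q : ℝ) / L ≤ (y.1 : ℝ) := by
        have e1 : (dt w0.1 w0.2).toNat = y.1 := by rw [← hFw0]
        have e2 := hDpos w0 hw0
        have e3 : ((y.1 : ℕ) : ℝ) = (dt w0.1 w0.2 : ℝ) := by
          rw [← e1]
          exact_mod_cast Int.toNat_of_nonneg e2.le
        rw [e3]
        rw [hP, mem_filter] at hw0
        exact hw0.2
      have hsub : P.filter (fun w => F w = y) ⊆
          (cone X e.1 e.2 ×ˢ cone X e.1 e.2).filter (fun w => dt w.1 w.2 = (y.1 : ℕ) ∧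
            ((y.1 : ℕ) : ℤ) ∣ w.2.re - ((y.2 : ℕ) : ℤ) * w.1.re ∧
            ((y.1 : ℕ) : ℤ) ∣ w.2.im - ((y.2 : ℕ) : ℤ) * w.1.im) := by
        intro w hw
        rw [mem_filter] at hw
        obtain ⟨hw, hFw⟩ := hw
        obtain ⟨-, -, hc3, hc4, -⟩ := hcc w hw
        have e2 := hDpos w hw
        have e1 : (dt w.1 w.2).toNat = y.1 := by rw [← hFw]
        have e3 : cc w = y.2 := by rw [← hFw]
        have e4 : ((y.1 : ℕ) : ℤ) = dt w.1 w.2 := by omega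
        rw [hP, mem_filter, mem_product] at hw
        rw [mem_filter, mem_product]
        refine ⟨⟨hScone _ hw.1.1, hScone _ hw.1.2⟩, e4.symm, ?_, ?_⟩
        · rw [e4, ← e3]; exact hc3
        · rw [e4, ← e3]; exact hc4
      have hcard := h5 K κ Q X y.1 ((y.2 : ℕ) : ℤ) hK hκ hQ hX hy1 e he
      refine (Nat.cast_le.2 (card_le_card hsub)).trans (hcard.trans ?_)
      rw [hMu]
      have hy0 : (0 : ℝ) < (y.1 : ℝ) := lt_of_lt_of_le hΔ hyD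
      have e5 : 4 * ((K : ℝ) * Q / κ) / (y.1 : ℝ) ≤ 4 * ((K : ℝ) / κ * L) := by
        rw [div_le_iff₀ hy0]
        calc 4 * ((K : ℝ) * Q / κ) = 4 * ((K : ℝ) / κ * L) * (Q / L) := by
              field_simp
          _ ≤ _ := mul_le_mul_of_nonneg_left hyD (by positivity)
      exact pow_le_pow_left₀ (by positivity) (by linarith) 4
  have hR : ∀ t u : ℕ, Q ≤ t → t ≤ 2 * Q → Q ≤ u → u ≤ 2 * Q →
      ∑ y ∈ T, |EE Q y.1 y.2 t u| ≤ |CA| * (Q : ℝ) ^ 3 / Real.log Q ^ 30 := by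
    intro t u ht1 ht2 hu1 hu2
    rw [hT, Finset.sum_sigma]
    refine (hLSV Q hQ1 t u ht1 ht2 hu1 hu2).trans ?_
    gcongr
    exact le_abs_self _
  have hBB := sum_BB hQ T (fun y => y.1) (fun y => y.2) hR
  calc ∑ w ∈ P, |Gv Q X w.1 w.2 - G0 Q X w.1 w.2|
      ≤ ∑ w ∈ P, C * L ^ 4 * BB Q (F w).1 (F w).2 :=
        Finset.sum_le_sum fun w hw => (hcc w hw).2.2.2.2
    _ = ∑ y ∈ T, ∑ w ∈ P.filter (fun w => F w = y), C * L ^ 4 * BB Q (F w).1 (F w).2 :=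
        (Finset.sum_fiberwise_of_maps_to hmaps _).symm
    _ = ∑ y ∈ T, ((P.filter (fun w => F w = y)).card : ℝ) * (C * L ^ 4 * BB Q y.1 y.2) := by
        refine Finset.sum_congr rfl fun y _ => ?_
        rw [← nsmul_eq_mul, ← Finset.sum_const]
        refine Finset.sum_congr rfl fun w hw => ?_
        rw [(mem_filter.1 hw).2]
    _ ≤ ∑ y ∈ T, Mu * (C * L ^ 4 * BB Q y.1 y.2) := by
        refine Finset.sum_le_sum fun y hy => ?_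
        exact mul_le_mul_of_nonneg_right (hfib y hy)
          (mul_nonneg (by positivity) (BB_nonneg _ _ _))
    _ = Mu * (C * L ^ 4 * ∑ y ∈ T, BB Q y.1 y.2) := by
        rw [Finset.mul_sum, Finset.mul_sum]
    _ ≤ Mu * (C * L ^ 4 * (4 * (|CA| * (Q : ℝ) ^ 3 / Real.log Q ^ 30))) := by
        gcongr
    _ ≤ ε * (Q : ℝ) ^ 3 :=
        numer hq1 (by positivity) hC.le (abs_nonneg _) (by positivity) hqG

end Pool.Agent.W935.EC
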